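import Pool.Agent.Helper25.HL.All

/-!
# The operator of project HL with its structure (`T ^ 3 = T ^ 2`, `T ^ 2` of rank one, trace `0`)
-/

set_option autoImplicit false

open Filter Topology

noncomputable section

namespace Pool.Agent.Helper45.BK.HL

open Pool.Agent.Helper25.HL Pool.Agent.Helper27.HL

/-- as `nli`, with the equation `T ^ 3 = T ^ 2` instead of the eigenvalues -/
theorem op (h1 : S_RP0) (h2 : S_RP1) (h3 : S_NUC) (h4 : S_TSQ) (s : Scheme) :
    ∃ (f : ℕ → (XX s.P s.D →L[ℂ] ℂ)) (x : ℕ → XX s.P s.D) (T : XX s.P s.D →L[ℂ] XX s.P s.D),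
      Summable (fun i => ‖f i‖ * ‖x i‖) ∧ (∀ y, T y = ∑' i, f i y • x i) ∧
      ∑' i, f i (x i) = 0 ∧ (∀ y, T (T (T y)) = T (T y)) ∧
      Module.finrank ℂ (LinearMap.range ((T.comp T : XX s.P s.D →L[ℂ] XX s.P s.D) :
        XX s.P s.D →ₗ[ℂ] XX s.P s.D)) = 1 := by
  have hP1 : ∀ k, 1 ≤ s.P k := by
    intro k
    rcases k with _ | k
    · rw [s.hP0]
    · have := s.hP k
      omega
  obtain ⟨c₀, hc₀⟩ := h1 s.P s.D hP1 0
  obtain ⟨c₁, hc₁⟩ := h1 s.P s.D hP1 1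
  set c₂ : ℕ → ℝ := fun k => 40 / 2 ^ (s.D (k + 2)).J + 8 * (2 ^ (s.D (k + 1)).J +
    2 ^ (s.D (k + 2)).J + 2 ^ (s.D (k + 3)).J) * Real.sqrt ((s.P (k + 2) : ℝ) / s.P (k + 3))
    with hc₂
  set c : ℕ → ℝ := fun k => if k = 0 then c₀ else if k = 1 then c₁ else c₂ (k - 2) with hc
  have hF : ∀ k, FRep s.P s.D k (c k) := by
    intro k
    rcases k with _ | _ | k
    · exact hc₀
    · exact hc₁
    · have hT : TriH s.P s.D (k + 1) :=
        { hk := by omega
          hP := s.hP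
          hg := s.hg
          h1 := s.h1 (k + 1 + 1) (by omega)
          h2 := s.h2 (k + 1 + 1) (by omega)
          h8 := s.h8 (k + 1 + 1) (by omega)
          hr := fun i _ hi => s.hr i hi }
      exact h2 s.P s.D (k + 1) hT
  have hsum : Summable c := by
    rw [← summable_nat_add_iff 2]
    have e : (fun k => c (k + 2)) = c₂ := by
      funext k
      rfl
    rw [e, hc₂]
    apply Summable.add
    · have h6 := (summable_nat_add_iff 2).2 s.hs
      have h7 := h6.mul_left 40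
      refine h7.congr fun k => ?_
      ring
    · have hgeo : Summable (fun k : ℕ => (96 : ℝ) * (1 / 2) ^ k) :=
        (summable_geometric_of_lt_one (by norm_num) (by norm_num)).mul_left 96
      refine Summable.of_nonneg_of_le (fun k => by positivity) (fun k => ?_) hgeo
      have a1 := two_pow_le s (k + 1)
      have a2 := two_pow_le s (k + 2)
      have a3 := two_pow_le s (k + 3)
      have a4 := sqrt_le s k
      have b1 : (2 : ℝ) ^ (s.D (k + 1)).J + 2 ^ (s.D (k + 2)).J + 2 ^ (s.D (k + 3)).J ≤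
          6 * 2 ^ (k + 2) := by
        have e1 : (2 : ℝ) ^ (k + 3) = 2 * 2 ^ (k + 2) := by ring
        have e2 : (2 : ℝ) ^ (k + 2) = 2 * 2 ^ (k + 1) := by ring
        have e3 : (0 : ℝ) < 2 ^ (k + 1) := by positivity
        linarith
      calc 8 * ((2 : ℝ) ^ (s.D (k + 1)).J + 2 ^ (s.D (k + 2)).J + 2 ^ (s.D (k + 3)).J) *
            Real.sqrt ((s.P (k + 2) : ℝ) / s.P (k + 3))
          ≤ 8 * (6 * 2 ^ (k + 2)) * (1 / ((2 : ℝ) ^ (k + 2)) ^ 2) := by
            gcongr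
        _ = 48 * (1 / (2 : ℝ) ^ (k + 2)) := by
            field_simp
            ring
        _ ≤ 96 * (1 / 2) ^ k := by
            have e4 : (1 / (2 : ℝ) ^ (k + 2)) = (1 / 4) * (1 / 2) ^ k := by
              rw [pow_add, one_div_pow]
              field_simp
              norm_num
            rw [e4]
            have e5 : (0 : ℝ) < (1 / 2) ^ k := by positivity
            nlinarith
  obtain ⟨f, x, T, t1, t2, t3, t4⟩ := h3 s.P s.D c hF hsum
  obtain ⟨u1, u2⟩ := h4 s.P s.D s.hP0 hP1 T t4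
  exact ⟨f, x, T, t1, t2, t3, u1, u2⟩

/-- all parts together -/
theorem all : ∃ s : Scheme,
    (∀ Y : Submodule ℂ (XX s.P s.D), IsClosed (Y : Set (XX s.P s.D)) →
      ∀ K : Set Y, IsCompact K → ∀ ε : ℝ, 0 < ε →
        ∃ S : Y →L[ℂ] Y, FiniteDimensional ℂ (LinearMap.range (S : Y →ₗ[ℂ] Y)) ∧
          ∀ y ∈ K, ‖S y - y‖ < ε) ∧
    ∃ (f : ℕ → (XX s.P s.D →L[ℂ] ℂ)) (x : ℕ → XX s.P s.D) (T : XX s.P s.D →L[ℂ] XX s.P s.D),
      Summable (fun i => ‖f i‖ * ‖x i‖) ∧ (∀ y, T y = ∑' i, f i y • x i) ∧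
      ∑' i, f i (x i) = 0 ∧ (∀ y, T (T (T y)) = T (T y)) ∧
      Module.finrank ℂ (LinearMap.range ((T.comp T : XX s.P s.D →L[ℂ] XX s.P s.D) :
        XX s.P s.D →ₗ[ℂ] XX s.P s.D)) = 1 := by
  obtain ⟨s⟩ := h_sc
  exact ⟨s, Pool.Agent.Helper59.HL.hap s.P s.D (h_pg s.P s.D s.W),
    op Pool.Agent.Helper53.HL.rp0 h_rp1 Pool.Agent.Helper96.HL.nuc
      (Pool.Agent.Helper50.HL.tsq h_lp2) s⟩

end Pool.Agent.Helper45.BK.HL
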